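import Pool.Agent.H78.XQ.Targets
import Pool.Agent.H6.NB.Targets

/-!
# ITG: the probability that no run has the outcome zero is a multiple of `2 ^ (-r)`
-/

set_option autoImplicit false

namespace Pool.Agent.H78.XQ

open Finset Pool.Agent.H6.NB Pool.Agent.H70.OQ Pool.Agent.H70.EH Pool.Agent.H70.EI

theorem itg_sg (b : Bool) : ∃ z : ℤ, sg b = z := by
  unfold sg
  split_ifs
  · exact ⟨-1, by norm_num⟩
  · exact ⟨1, by norm_num⟩

theorem itg_phi (q : ℕ) (p : VV q → Bool) : ∃ N : ℤ, phi q p ^ 2 = (N : ℝ) ^ 2 / 2 ^ (3 * q) := by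
  have hprod : ∀ a b : Fin q → Bool, ∃ z : ℤ,
      (∏ i, if a i && b i then (-1 : ℝ) else 1) = z := by
    intro a b
    refine ⟨∏ i, if a i && b i then (-1 : ℤ) else 1, ?_⟩
    push_cast
    rfl
  choose s hs using itg_sg
  choose h hh using hprod
  refine ⟨∑ a, ∑ b, s (p (false, a)) * h a b * s (p (true, b)), ?_⟩
  have h1 : phi q p = ((∑ a, ∑ b, s (p (false, a)) * h a b * s (p (true, b)) : ℤ) : ℝ) /
      √(2 ^ q) / 2 ^ q := by
    unfold phi
    congr 1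
    push_cast
    rw [Finset.sum_div]
    refine Finset.sum_congr rfl fun a _ => ?_
    rw [Finset.sum_div]
    refine Finset.sum_congr rfl fun b _ => ?_
    unfold hd
    rw [hs, hs, hh]
    ring
  rw [h1, div_pow, div_pow, Real.sq_sqrt (by positivity)]
  rw [div_div]
  congr 1
  ring

theorem itg (hPHB : Pool.Agent.H6.NB.T_PHB) : T_ITG := by
  intro l q R P
  choose N hN using fun u => itg_phi q (P u)
  have hle : ∀ u, (N u : ℝ) ^ 2 ≤ 2 ^ (3 * q) := by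
    intro u
    have h1 : phi q (P u) ^ 2 ≤ 1 := by
      rw [← sq_abs]
      exact pow_le_one₀ (abs_nonneg _) (hPHB q (P u))
    rw [hN u, div_le_one (by positivity)] at h1
    exact h1
  have havg : avg q P = ((∑ u, N u ^ 2 : ℤ) : ℝ) / 2 ^ (2 * l + 3 * q) := by
    unfold avg
    have h1 : ∀ u, phi q (P u) ^ 2 = (N u : ℝ) ^ 2 / 2 ^ (3 * q) := hN
    simp_rw [h1]
    rw [← Finset.sum_div, div_div]
    push_cast
    congr 1
    rw [Fintype.card_fun, Fintype.card_bool, Fintype.card_fin]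
    push_cast
    rw [pow_add, mul_comm]
  have hsum : ((∑ u, N u ^ 2 : ℤ) : ℝ) ≤ 2 ^ (2 * l + 3 * q) := by
    push_cast
    calc ∑ u, (N u : ℝ) ^ 2 ≤ ∑ u : Fin (2 * l) → Bool, (2 : ℝ) ^ (3 * q) :=
          Finset.sum_le_sum fun u _ => hle u
      _ = 2 ^ (2 * l + 3 * q) := by
          rw [Finset.sum_const, Finset.card_univ, nsmul_eq_mul]
          simp [pow_add]
  set S : ℤ := ∑ u, N u ^ 2 with hS
  have hS0 : 0 ≤ S := Finset.sum_nonneg fun _ _ => sq_nonneg _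
  have hSle : S ≤ 2 ^ (2 * l + 3 * q) := by exact_mod_cast hsum
  obtain ⟨K0, hK0⟩ : ∃ K0 : ℕ, (K0 : ℤ) = 2 ^ (2 * l + 3 * q) - S :=
    ⟨(2 ^ (2 * l + 3 * q) - S).toNat, Int.toNat_of_nonneg (by linarith)⟩
  have hK0le : K0 ≤ 2 ^ (2 * l + 3 * q) := by
    have : (K0 : ℤ) ≤ 2 ^ (2 * l + 3 * q) := by linarith
    exact_mod_cast this
  refine ⟨K0 ^ R, ?_, ?_⟩
  · calc K0 ^ R ≤ (2 ^ (2 * l + 3 * q)) ^ R := Nat.pow_le_pow_left hK0le R
      _ = 2 ^ (R * (2 * l + 3 * q)) := by rw [← pow_mul, mul_comm]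
  · unfold kap
    rw [havg]
    have h2 : (1 : ℝ) - (S : ℝ) / 2 ^ (2 * l + 3 * q) = (K0 : ℝ) / 2 ^ (2 * l + 3 * q) := by
      have : (K0 : ℝ) = 2 ^ (2 * l + 3 * q) - S := by exact_mod_cast hK0
      rw [this, sub_div, div_self (by positivity)]
    rw [h2, div_pow, ← pow_mul, mul_comm R]
    push_cast
    rfl

end Pool.Agent.H78.XQ
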